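import Pool.Agent.Results.MP_c59857_nt.AllOrdersBothSigns

/-!
# Logarithmic averages of all correlations of the Möbius function
-/

open Finset

namespace Pool.Agent.Results.MP_3e612f_nt.AllOrdersLog

/-- Partial summation: a set with positive lower density has positive lower logarithmic density. -/
lemma log_lower (Q : ℕ → Prop) [DecidablePred Q] (δ : ℝ) (hδ : 0 < δ) (N₁ : ℕ)
    (h : ∀ N : ℕ, N₁ ≤ N → δ * N ≤ (((Icc 1 N).filter Q).card : ℝ)) :
    ∃ N₂ : ℕ, ∀ N : ℕ, N₂ ≤ N →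
      δ / 2 * Real.log N ≤ ∑ n ∈ (Icc 1 N).filter Q, (1 : ℝ) / n := by
  set M := max N₁ 1 with hM
  have hstep : ∀ k : ℕ, δ * ((harmonic (M + k) : ℚ) : ℝ) - δ * ((harmonic M : ℚ) : ℝ) ≤
      (∑ n ∈ (Icc 1 (M + k)).filter Q, (1 : ℝ) / n) -
        (((Icc 1 (M + k)).filter Q).card : ℝ) / ((M + k : ℕ) : ℝ) := by
    intro k
    induction k with
    | zero =>
      simp only [Nat.add_zero, sub_self]
      rw [sub_nonneg, Finset.card_eq_sum_ones, Nat.cast_sum, Finset.sum_div]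
      refine Finset.sum_le_sum fun n hn => ?_
      rw [mem_filter, mem_Icc] at hn
      have h1 : (0 : ℝ) < n := by exact_mod_cast hn.1.1
      have h2 : (n : ℝ) ≤ M := by exact_mod_cast hn.1.2
      rw [Nat.cast_one]
      exact one_div_le_one_div_of_le h1 h2
    | succ k ih =>
      have hMk : 1 ≤ M + k := by have := le_max_right N₁ 1; omega
      have hpos : (0 : ℝ) < ((M + k : ℕ) : ℝ) := by exact_mod_cast hMk
      have hpos' : (0 : ℝ) < ((M + k : ℕ) : ℝ) + 1 := by linarith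
      have hcard : δ * ((M + k : ℕ) : ℝ) ≤ (((Icc 1 (M + k)).filter Q).card : ℝ) :=
        h (M + k) (by have := le_max_left N₁ 1; omega)
      have hIcc : Icc 1 (M + (k + 1)) = insert (M + k + 1) (Icc 1 (M + k)) := by
        ext x; simp only [mem_Icc, mem_insert]; omega
      have hnot : M + k + 1 ∉ (Icc 1 (M + k)).filter Q := by
        rw [mem_filter, mem_Icc]; omega
      have hh : ((harmonic (M + (k + 1)) : ℚ) : ℝ) =
          ((harmonic (M + k) : ℚ) : ℝ) + 1 / (((M + k : ℕ) : ℝ) + 1) := by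
        rw [← Nat.add_assoc, harmonic_succ]
        push_cast
        rw [one_div]
      have hcast : ((M + (k + 1) : ℕ) : ℝ) = ((M + k : ℕ) : ℝ) + 1 := by push_cast; ring
      have hcast' : ((M + k + 1 : ℕ) : ℝ) = ((M + k : ℕ) : ℝ) + 1 := by push_cast; ring
      set C : ℝ := (((Icc 1 (M + k)).filter Q).card : ℝ) with hC
      set m : ℝ := ((M + k : ℕ) : ℝ) with hm
      have key : δ * (1 / (m + 1)) ≤ C / m - C / (m + 1) := by
        have : C / m - C / (m + 1) = C / (m * (m + 1)) := by field_simp; ring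
        rw [this, mul_one_div, div_le_div_iff₀ hpos' (by positivity)]
        nlinarith
      rw [hh, hcast, hIcc, Finset.filter_insert]
      split_ifs with hq
      · rw [Finset.sum_insert hnot, Finset.card_insert_of_notMem hnot, hcast']
        push_cast
        have e : (C + 1) / (m + 1) = C / (m + 1) + 1 / (m + 1) := by ring
        rw [← hC, e]
        linarith
      · rw [← hC]
        linarith
  -- final bound
  obtain ⟨N₂, hN₂⟩ : ∃ N₂ : ℕ, ∀ N : ℕ, N₂ ≤ N → 2 * ((harmonic M : ℚ) : ℝ) ≤ Real.log N := by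
    have := (Real.tendsto_log_atTop.comp tendsto_natCast_atTop_atTop).eventually_ge_atTop
      (2 * ((harmonic M : ℚ) : ℝ))
    obtain ⟨N₂, hN₂⟩ := Filter.eventually_atTop.1 this
    exact ⟨N₂, fun N hN => hN₂ N hN⟩
  refine ⟨max N₂ M, fun N hN => ?_⟩
  obtain ⟨k, rfl⟩ := Nat.exists_eq_add_of_le (le_trans (le_max_right N₂ M) hN)
  have h1 := hstep k
  have h2 := hN₂ (M + k) (le_trans (le_max_left N₂ M) hN)
  have h3 : Real.log ((M + k : ℕ) : ℝ) ≤ ((harmonic (M + k) : ℚ) : ℝ) := by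
    refine le_trans ?_ (log_add_one_le_harmonic (M + k))
    have hMk : 1 ≤ M + k := by have := le_max_right N₁ 1; omega
    have hpos : (0 : ℝ) < ((M + k : ℕ) : ℝ) := by exact_mod_cast hMk
    exact Real.log_le_log hpos (by push_cast; linarith)
  have h4 : (0 : ℝ) ≤ (((Icc 1 (M + k)).filter Q).card : ℝ) / ((M + k : ℕ) : ℝ) := by positivity
  nlinarith

/-- Values in `{-1, 0, 1}`. -/
lemma sum_bound (P : ℕ → ℤ) (hP : ∀ n, P n = 0 ∨ P n = 1 ∨ P n = -1) (N : ℕ) (d : ℝ)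
    (h1 : d ≤ ∑ n ∈ (Icc 1 N).filter (fun n => P n = 1), (1 : ℝ) / n)
    (h2 : d ≤ ∑ n ∈ (Icc 1 N).filter (fun n => P n = -1), (1 : ℝ) / n) :
    |∑ n ∈ Icc 1 N, (P n : ℝ) / n| ≤ ∑ n ∈ Icc 1 N, |(P n : ℝ)| / n - 2 * d := by
  have e1 : ∑ n ∈ Icc 1 N, (P n : ℝ) / n =
      ∑ n ∈ (Icc 1 N).filter (fun n => P n = 1), (1 : ℝ) / n -
        ∑ n ∈ (Icc 1 N).filter (fun n => P n = -1), (1 : ℝ) / n := by
    rw [Finset.sum_filter, Finset.sum_filter, ← Finset.sum_sub_distrib]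
    refine Finset.sum_congr rfl fun n _ => ?_
    rcases hP n with h | h | h <;> simp [h, neg_div]
  have e2 : ∑ n ∈ Icc 1 N, |(P n : ℝ)| / n =
      ∑ n ∈ (Icc 1 N).filter (fun n => P n = 1), (1 : ℝ) / n +
        ∑ n ∈ (Icc 1 N).filter (fun n => P n = -1), (1 : ℝ) / n := by
    rw [Finset.sum_filter, Finset.sum_filter, ← Finset.sum_add_distrib]
    refine Finset.sum_congr rfl fun n _ => ?_
    rcases hP n with h | h | h <;> simp [h]
  rw [e1, e2, abs_le]
  constructor <;> linarith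

lemma vals {r : ℕ} (α : Fin r → ℤ) (ε : Fin r → ℕ) (n : ℕ) :
    (∏ i : Fin r, ArithmeticFunction.moebius (((n : ℤ) + α i).toNat) ^ (ε i)) = 0 ∨
    (∏ i : Fin r, ArithmeticFunction.moebius (((n : ℤ) + α i).toNat) ^ (ε i)) = 1 ∨
    (∏ i : Fin r, ArithmeticFunction.moebius (((n : ℤ) + α i).toNat) ^ (ε i)) = -1 := by
  have key : ∀ s : Finset (Fin r),
      (∏ i ∈ s, ArithmeticFunction.moebius (((n : ℤ) + α i).toNat) ^ (ε i)) = 0 ∨
      (∏ i ∈ s, ArithmeticFunction.moebius (((n : ℤ) + α i).toNat) ^ (ε i)) = 1 ∨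
      (∏ i ∈ s, ArithmeticFunction.moebius (((n : ℤ) + α i).toNat) ^ (ε i)) = -1 := by
    classical
    intro s
    induction s using Finset.induction_on with
    | empty => simp
    | insert a s ha ih =>
      rw [Finset.prod_insert ha]
      have h1 : (ArithmeticFunction.moebius (((n : ℤ) + α a).toNat)) = 0 ∨
          (ArithmeticFunction.moebius (((n : ℤ) + α a).toNat)) = 1 ∨
          (ArithmeticFunction.moebius (((n : ℤ) + α a).toNat)) = -1 :=
        ArithmeticFunction.moebius_eq_or _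
      rcases h1 with h | h | h
      · rcases Nat.eq_zero_or_pos (ε a) with he | he
        · rw [he, pow_zero, one_mul]; exact ih
        · rw [h, zero_pow he.ne', zero_mul]; exact Or.inl rfl
      · rw [h, one_pow, one_mul]; exact ih
      · rw [h]
        rcases neg_one_pow_eq_or ℤ (ε a) with h2 | h2
        · rw [h2, one_mul]; exact ih
        · rw [h2, neg_one_mul]
          rcases ih with h3 | h3 | h3
          · left; rw [h3]; rfl
          · right; right; rw [h3]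
          · right; left; rw [h3]; rfl
  exact key univ

/-- Let `α_i` be distinct integers, exponents `ε_i ∈ {1, 2}`, not all `2`, and
`P n = ∏ μ(n + α_i) ^ ε_i` (`μ = 0` on non-positive integers). (1) If `P` does not vanish at some
`n ≥ 1` of the residue class `c mod q`, then for each sign `σ` the `n ≡ c mod q` with `P n = σ` have
positive lower logarithmic density. (2) If `P` is not identically zero on the positive integers,
then `|∑_{n ≤ N} P n / n| ≤ ∑_{n ≤ N} |P n| / n - δ log N` for all large `N`, with some `δ > 0`. -/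
theorem result :
    ∀ (r : ℕ) (α : Fin r → ℤ), Function.Injective α →
      ∀ (ε : Fin r → ℕ), (∀ i, ε i = 1 ∨ ε i = 2) → (∃ i, ε i = 1) →
      (∀ q c : ℕ, 0 < q →
        (∃ n : ℕ, 1 ≤ n ∧ n % q = c % q ∧
          ∏ i : Fin r, ArithmeticFunction.moebius (((n : ℤ) + α i).toNat) ^ (ε i) ≠ 0) →
        ∀ σ : ℤ, (σ = 1 ∨ σ = -1) → ∃ δ : ℝ, 0 < δ ∧ ∃ N₁ : ℕ, ∀ N : ℕ, N₁ ≤ N →
          δ * Real.log N ≤ ∑ n ∈ (Icc 1 N).filter (fun n => n % q = c % q ∧
            ∏ i : Fin r,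
              ArithmeticFunction.moebius (((n : ℤ) + α i).toNat) ^ (ε i) = σ), (1 : ℝ) / n) ∧
      ((∃ n : ℕ, 1 ≤ n ∧
          ∏ i : Fin r, ArithmeticFunction.moebius (((n : ℤ) + α i).toNat) ^ (ε i) ≠ 0) →
        ∃ δ : ℝ, 0 < δ ∧ ∃ N₁ : ℕ, ∀ N : ℕ, N₁ ≤ N →
          |∑ n ∈ Icc 1 N, (∏ i : Fin r,
            ((ArithmeticFunction.moebius (((n : ℤ) + α i).toNat) : ℤ) : ℝ) ^ (ε i)) / n| ≤
          ∑ n ∈ Icc 1 N, |∏ i : Fin r,
            ((ArithmeticFunction.moebius (((n : ℤ) + α i).toNat) : ℤ) : ℝ) ^ (ε i)| / n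
            - δ * Real.log N) := by
  intro r α hα ε hε hex
  have h1 : ∀ q c : ℕ, 0 < q →
        (∃ n : ℕ, 1 ≤ n ∧ n % q = c % q ∧
          ∏ i : Fin r, ArithmeticFunction.moebius (((n : ℤ) + α i).toNat) ^ (ε i) ≠ 0) →
        ∀ σ : ℤ, (σ = 1 ∨ σ = -1) → ∃ δ : ℝ, 0 < δ ∧ ∃ N₁ : ℕ, ∀ N : ℕ, N₁ ≤ N →
          δ * Real.log N ≤ ∑ n ∈ (Icc 1 N).filter (fun n => n % q = c % q ∧
            ∏ i : Fin r,
              ArithmeticFunction.moebius (((n : ℤ) + α i).toNat) ^ (ε i) = σ), (1 : ℝ) / n := by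
    intro q c hq hne σ hσ
    obtain ⟨δ, hδ, N₁, hN⟩ :=
      (MP_c59857_nt.AllOrdersBothSigns.result r α hα ε hε hex).1 q c hq hne σ hσ
    obtain ⟨N₂, hN₂⟩ := log_lower _ δ hδ N₁ hN
    exact ⟨δ / 2, by positivity, N₂, hN₂⟩
  refine ⟨h1, ?_⟩
  rintro ⟨n, hn, hP⟩
  have hne' : ∃ n : ℕ, 1 ≤ n ∧ n % 1 = 0 % 1 ∧
      ∏ i : Fin r, ArithmeticFunction.moebius (((n : ℤ) + α i).toNat) ^ (ε i) ≠ 0 :=
    ⟨n, hn, by rw [Nat.mod_one], hP⟩
  obtain ⟨δ₁, hδ₁, N₁, h₁⟩ := h1 1 0 one_pos hne' 1 (Or.inl rfl)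
  obtain ⟨δ₂, hδ₂, N₂, h₂⟩ := h1 1 0 one_pos hne' (-1) (Or.inr rfl)
  refine ⟨2 * min δ₁ δ₂, by positivity, max (max N₁ N₂) 1, fun N hN => ?_⟩
  have hN1 : 1 ≤ N := le_trans (le_max_right _ _) hN
  have hlog : 0 ≤ Real.log N := Real.log_nonneg (by exact_mod_cast hN1)
  set P : ℕ → ℤ := fun n => ∏ i : Fin r, ArithmeticFunction.moebius (((n : ℤ) + α i).toNat) ^ (ε i)
    with hPdef
  have e1 : ∀ n : ℕ, ∏ i : Fin r,
      ((ArithmeticFunction.moebius (((n : ℤ) + α i).toNat) : ℤ) : ℝ) ^ (ε i) = (P n : ℝ) := by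
    intro n; simp only [hPdef]; push_cast; rfl
  have h3 : min δ₁ δ₂ * Real.log N ≤
      ∑ n ∈ (Icc 1 N).filter (fun n => P n = 1), (1 : ℝ) / n := by
    refine (mul_le_mul_of_nonneg_right (min_le_left _ _) hlog).trans
      ((h₁ N (le_trans (le_trans (le_max_left _ _) (le_max_left _ _)) hN)).trans ?_)
    refine Finset.sum_le_sum_of_subset_of_nonneg ?_ (fun _ _ _ => by positivity)
    intro n hn
    rw [mem_filter] at hn ⊢
    exact ⟨hn.1, hn.2.2⟩
  have h4 : min δ₁ δ₂ * Real.log N ≤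
      ∑ n ∈ (Icc 1 N).filter (fun n => P n = -1), (1 : ℝ) / n := by
    refine (mul_le_mul_of_nonneg_right (min_le_right _ _) hlog).trans
      ((h₂ N (le_trans (le_trans (le_max_right _ _) (le_max_left _ _)) hN)).trans ?_)
    refine Finset.sum_le_sum_of_subset_of_nonneg ?_ (fun _ _ _ => by positivity)
    intro n hn
    rw [mem_filter] at hn ⊢
    exact ⟨hn.1, hn.2.2⟩
  have h5 := sum_bound P (fun n => vals α ε n) N _ h3 h4
  simp only [e1]
  linarith

end Pool.Agent.Results.MP_3e612f_nt.AllOrdersLog
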